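import Pool.Agent.Lib.MP_ad48ef_co.T3

/-!
# Planar graphs of diameter three have total domination number at most six
-/

set_option autoImplicit false

namespace Pool.Agent.Results.MP_ad48ef_co.Full

variable {V : Type}

/-- A drawing of `G` in the plane without crossings: distinct points for the vertices and one
simple arc for every edge, which joins the points of its two ends, passes through no point of a
vertex in its interior, and meets the arc of another edge only at ends of both arcs. -/
structure Drawing (G : SimpleGraph V) where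
  pt : V → EuclideanSpace ℝ (Fin 2)
  pt_inj : Function.Injective pt
  arc : G.edgeSet → C(unitInterval, EuclideanSpace ℝ (Fin 2))
  arc_inj : ∀ e, Function.Injective (arc e)
  ends : ∀ e : G.edgeSet, ∃ u v, (e : Sym2 V) = s(u, v) ∧ arc e 0 = pt u ∧ arc e 1 = pt v
  avoid : ∀ e w t, arc e t = pt w → t = 0 ∨ t = 1
  cross : ∀ e f, e ≠ f → ∀ a b, arc e a = arc f b → (a = 0 ∨ a = 1) ∧ (b = 0 ∨ b = 1)

/-- Planar graphs. -/
def IsPlanar (G : SimpleGraph V) : Prop := Nonempty (Drawing G)

/-- Every vertex, also every vertex of `S`, has a neighbour in `S`. -/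
def IsTotalDominating (G : SimpleGraph V) (S : Set V) : Prop := ∀ v, ∃ u ∈ S, G.Adj v u

/-- The least size of a total dominating set; it is infinite if there is none. -/
noncomputable def totalDominationNumber (G : SimpleGraph V) : ℕ∞ :=
  ⨅ (S : Set V) (_ : IsTotalDominating G S), S.encard

theorem result (V : Type) [Finite V] (G : SimpleGraph V) (hp : IsPlanar G) (hd : G.ediam = 3) :
    totalDominationNumber G ≤ 6 := by
  classical
  obtain ⟨D⟩ := hp
  let c : C(EuclideanSpace ℝ (Fin 2), ℝ × ℝ) := ⟨fun z => (z 0, z 1), by fun_prop⟩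
  have hc : Function.Injective c := fun z w h => by
    ext i
    fin_cases i
    exacts [congrArg Prod.fst h, congrArg Prod.snd h]
  let r : C(unitInterval, unitInterval) := ⟨unitInterval.symm, unitInterval.continuous_symm⟩
  have hr : ∀ t, r t = 0 ∨ r t = 1 → t = 0 ∨ t = 1 := fun t h =>
    h.symm.imp unitInterval.symm_eq_one.1 unitInterval.symm_eq_zero.1
  have key : ∀ u v (h : G.Adj u v), ∃ σ : C(unitInterval, unitInterval),
      (∀ t, σ t = 0 ∨ σ t = 1 → t = 0 ∨ t = 1) ∧ D.arc ⟨s(u, v), h⟩ (σ 0) = D.pt u ∧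
        D.arc ⟨s(u, v), h⟩ (σ 1) = D.pt v := fun u v h => by
    obtain ⟨a, b, e, h0, h1⟩ := D.ends ⟨s(u, v), h⟩
    rcases Sym2.eq_iff.1 e with ⟨rfl, rfl⟩ | ⟨rfl, rfl⟩
    · exact ⟨.id _, fun _ => id, h0, h1⟩
    · exact ⟨r, hr, by simpa [r] using h1, by simpa [r] using h0⟩
  choose σ s1 s2 s3 using key
  let γ : V → V → C(unitInterval, ℝ × ℝ) := fun u v =>
    if h : G.Adj u v then c.comp ((D.arc ⟨s(u, v), h⟩).comp (σ u v h)) else .const _ 0
  have hγ : ∀ u v (h : G.Adj u v) t, γ u v t = c (D.arc ⟨s(u, v), h⟩ (σ u v h t)) :=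
    fun u v h t => by simp [γ, h]
  obtain ⟨S, h6, hS⟩ := Lib.MP_ad48ef_co.Gl.main_of Lib.MP_ad48ef_co.Gl.tops3
    (Shared.Planar.ht_of_drawing G (c ∘ D.pt) (hc.comp D.pt_inj) γ
      (fun u v h => ⟨by rw [hγ u v h, s2]; rfl, by rw [hγ u v h, s3]; rfl,
        fun w t k => s1 u v h t (D.avoid _ w _ (hc ((hγ u v h t).symm.trans k)))⟩)
      fun u v x y h k n a b e =>
        (D.cross _ _ (fun m => n (congrArg Subtype.val m)) _ _
          (hc ((hγ u v h a).symm.trans (e.trans (hγ x y k b))))).imp (s1 u v h a) (s1 x y k b))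
    (by rw [SimpleGraph.diam, hd]; rfl)
  refine (iInf₂_le (S : Set V) hS).trans ?_
  rw [Set.encard_coe_eq_coe_finsetCard]
  exact_mod_cast h6

end Pool.Agent.Results.MP_ad48ef_co.Full
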